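import Pool.Agent.Lib.MP_9f219e_an.Inf

/-!
Every nonempty subset of `{1, 2, …} ∪ {∞}` is the set of spectral multiplicities of an ergodic
automorphism of a standard non-atomic probability space.
-/

open MeasureTheory

theorem Pool.Agent.Results.MP_9f219e_an.AllSets.result (M : Set ℕ∞) :
    (∃ (X : Type) (_ : MeasurableSpace X) (_ : StandardBorelSpace X) (μ : Measure X)
      (_ : IsProbabilityMeasure μ) (_ : NullSingletonClass μ) (T : X ≃ᵐ X),
      Ergodic T μ ∧ Pool.Agent.Lib.MP_9f219e_an.HasMultiplicities μ T M) ↔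
      M.Nonempty ∧ 0 ∉ M :=
  Pool.Agent.Lib.MP_9f219e_an.realised_iff M
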